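import Pool.Agent.H19.BFL.Stmts4
import Pool.Agent.H87.BFL.CMR
import Pool.Agent.H50.PW.Det

/-!
# Row GRA of the board kbfo: the gradient bound on the balls
-/

set_option autoImplicit false

namespace Pool.BFL

open Finset Real
open Pool.Agent.H49.Ent Pool.Agent.H32.Dense Pool.STK Pool.KS3 Pool.KA Pool.KSAT Pool.K2S Pool.PB

namespace Gra

/-- The system with one level and the trivial sheet. -/
noncomputable def one {n : ℕ} (D : Dat n) (k w z : ℕ) : Dat n where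
  Ω := D.Ω
  Λ := D.Λ
  Z := D.Z
  Γ := D.Γ
  fin := D.fin
  ln := D.ln
  A := D.A
  E := D.E
  T := D.T
  h := fun _ => 0
  pt := D.pt
  c := fun _ => D.c k
  y₀ := fun _ => D.y₀ k
  F := fun _ _ => 0
  g := fun j => w + j * z
  i₀ := D.i₀

/-- Determinacy for the conditional law. -/
lemma det_cond {Ω S T : Type} [Fintype Ω] {p : Ω → ℝ} (hp : IsLaw p) {A : Ω → Prop} {X : Ω → S}
    {Y : Ω → T} (h : ∀ ω ω', A ω → A ω' → X ω = X ω' → Y ω = Y ω') : Det (cond p A True) X Y := by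
  intro ω ω' h1 h2
  rw [cond_pos_iff hp.nonneg] at h1 h2
  exact h ω ω' (of_eq_true h1.2) (of_eq_true h2.2)

/-- The system with one level satisfies the axioms. -/
lemma one_ok {n : ℕ} {D : Dat n} {K J r w₀ z M : ℕ} {κ₀ κ : ℝ} {p : D.Ω → ℝ} {A : D.Ω → Prop}
    (hp : IsLaw p) (hA : 0 < Pe p A) (hr : r ≤ J) (htop : w₀ + (M + 1) * z ≤ r)
    (hT : ∀ ω, D.T ω < 2 ^ J) (hE : ∀ l i, |D.E l i| ≤ 1) (hA0 : ∀ l, D.A l D.i₀ = 0)
    (hE0 : ∀ l, D.E l D.i₀ = 1) (htime : J * Real.log 2 - κ₀ * z ≤ CH (cond p A True) D.T D.ln)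
    (hptT : Det (cond p A True) D.pt D.T) (hptY : Det (cond p A True) D.pt (D.cell J r))
    (hCl : D.Cl K J w₀ z M κ₀ A) (e : D.Z → ℝ) (he0 : ∀ x, 0 ≤ e x)
    (heE : Ex (cond p A True) (fun ω => e (D.pt ω)) ≤ κ₀)
    (he : ∀ ω, 0 < cond p A True ω → ∀ u : Fin n → ℝ, (∃ i, 1 ≤ |u i|) →
      Pb (cond p A True) (fun ω' => D.pt ω' = D.pt ω ∧
        |∑ i, u i * D.E (D.ln ω') i| ≤ Real.exp (-(κ₀ * z))) ≤
        e (D.pt ω) * law (cond p A True) D.pt (D.pt ω)) {k z' : ℕ} (hk : k ≤ M) (hz' : z' ≤ z)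
    (hκ : κ₀ ≤ κ) (hκz : κ₀ * z ≤ κ * z') :
    (one D k (w₀ + k * z) z').Ok K J r (w₀ + k * z) z' 0 κ (cond p A True) := by
  classical
  have hq : IsLaw (cond p A True) := isLaw_cond hp hA
  have hexp : Real.exp (κ₀ * z) ≤ Real.exp (κ * z') := Real.exp_le_exp.2 hκz
  have hpos : ∀ ω, 0 < cond p A True ω → A ω := fun ω hω =>
    of_eq_true ((cond_pos_iff hp.nonneg A True ω).1 hω).2
  have htop' : w₀ + k * z + z' ≤ r := by
    have h1 : k * z ≤ M * z := Nat.mul_le_mul_right _ hk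
    have h2 : (M + 1) * z = M * z + z := by ring
    omega
  refine ⟨hq, hr, by simpa using htop', hT, hE, hA0, hE0, ?_, hptT, hptY, ?_, ?_, ?_, ?_, ?_, ?_,
    ?_, ?_, ?_, ?_, ?_⟩
  · show J * Real.log 2 - κ * z' ≤ CH (cond p A True) D.T D.ln
    linarith
  · intro j _
    show Det (cond p A True) D.pt (D.c k)
    exact det_cond hp (hCl.c_pt k hk)
  · intro j hj
    show Det (cond p A True) (D.wn J (w₀ + k * z + j * z')) (D.c k)
    have hj0 : j = 0 := by omega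
    subst hj0
    rw [zero_mul, add_zero]
    exact det_cond hp (hCl.c_wn k hk)
  · intro j hj
    omega
  · intro j hj
    show Det (cond p A True) (D.c k) (fun ω => D.T ω / 2 ^ (J - (w₀ + k * z + j * z')))
    have hj0 : j = 0 := by omega
    subst hj0
    rw [zero_mul, add_zero]
    exact det_cond hp (hCl.c_T k hk)
  · intro j hj ω hω i
    show |D.Y J ω i - D.y₀ k (D.c k ω) i| ≤ Real.exp (κ * z') / 2 ^ (w₀ + k * z + j * z')
    have hj0 : j = 0 := by omega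
    subst hj0
    rw [zero_mul, add_zero]
    exact (hCl.y₀_near k hk ω (hpos ω hω) i).trans
      (div_le_div_of_nonneg_right hexp (by positivity))
  · intro j x
    show (0 : Pl n).totalDegree ≤ K
    simp
  · intro j _ ω _
    show |(0 : ℝ) - MvPolynomial.eval ((one D k (w₀ + k * z) z').Y J ω) (0 : Pl n)| ≤
      Real.exp (κ * z') / 2 ^ (w₀ + k * z + j * z')
    rw [map_zero, sub_zero, abs_zero]
    positivity
  · intro j _ ω _ b _ i
    show |MvPolynomial.eval b (MvPolynomial.pderiv i (0 : Pl n))| ≤ Real.exp (κ * z')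
    rw [map_zero, map_zero, abs_zero]
    positivity
  · intro a b hab
    show w₀ + k * z + a * z' ≤ w₀ + k * z + b * z'
    have := Nat.mul_le_mul_right z' hab
    omega
  · intro j _
    show ((w₀ + k * z + j * z' : ℕ) : ℝ) ≤ ((w₀ + k * z + j * z' : ℕ) : ℝ) + κ * z'
    have h1 : 0 ≤ κ * z' := by
      by_contra hc
      have hE : 0 ≤ Ex (cond p A True) (fun ω => e (D.pt ω)) :=
        Finset.sum_nonneg fun ω _ => mul_nonneg (hq.nonneg ω) (he0 _)
      have : 0 ≤ κ₀ * z := mul_nonneg (hE.trans heE) (Nat.cast_nonneg z)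
      linarith
    linarith
  · refine ⟨e, he0, heE.trans hκ, ?_⟩
    intro ω hω u hu
    refine le_trans ?_ (he ω hω u hu)
    show Pb (cond p A True) (fun ω' => D.pt ω' = D.pt ω ∧
      |∑ i, u i * D.E (D.ln ω') i| ≤ Real.exp (-(κ * z'))) ≤ _
    refine Pool.Agent.H39.BFL.Pb_mono hq.nonneg fun ω' _ h => ⟨h.1, h.2.trans ?_⟩
    exact Real.exp_le_exp.2 (by linarith)

end Gra

theorem gra_thm : GRAStmt := by
  classical
  intro n K M κ hn hκ
  set η : ℝ := 1 / (2 * ((M + 1) * n)) with hηdef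
  have hn1 : (1 : ℝ) ≤ n := by exact_mod_cast hn
  have hM0 : (0 : ℝ) ≤ M := Nat.cast_nonneg M
  have hMn : 1 ≤ ((M : ℝ) + 1) * n := by nlinarith
  have hη : 0 < η := by positivity
  have hη1 : η ≤ 1 := by
    rw [hηdef, div_le_one (by positivity)]
    linarith
  obtain ⟨κ', hκ', zc, hcmr⟩ := cmr_thm n K η hn hη hη1
  set κ1 : ℝ := min κ 1 with hκ1def
  have hκ1 : 0 < κ1 := lt_min hκ one_pos
  have hκ1κ : κ1 ≤ κ := min_le_left _ _
  have hκ11 : κ1 ≤ 1 := min_le_right _ _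
  set κ₀ : ℝ := min (κ1 / 2) (min κ' (κ' * κ1 / 4)) with hκ₀def
  have hκ₀ : 0 < κ₀ := lt_min (by linarith) (lt_min hκ' (by positivity))
  have hκ₀1 : κ₀ ≤ κ1 / 2 := min_le_left _ _
  have hκ₀2 : κ₀ ≤ κ' := (min_le_right _ _).trans (min_le_left _ _)
  have hκ₀3 : κ₀ ≤ κ' * κ1 / 4 := (min_le_right _ _).trans (min_le_right _ _)
  obtain ⟨z₁, hz₁⟩ := exists_nat_ge (4 * (zc + 1) / κ1)
  refine ⟨κ₀, hκ₀, by linarith, z₁, ?_⟩
  intro J r w₀ z D p A hz hp hA hr htop hT hE hA0 hE0 htime hptT hptY hCl ⟨e, he0, heE, he⟩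
  have hz0 : (0 : ℝ) ≤ z := Nat.cast_nonneg z
  have hzc0 : (0 : ℝ) ≤ zc := Nat.cast_nonneg zc
  have hzz : 4 * (zc + 1) ≤ κ1 * z := by
    have h1 : (z₁ : ℝ) ≤ z := by exact_mod_cast hz
    have h2 := hz₁.trans h1
    rw [div_le_iff₀ hκ1] at h2
    linarith
  set z' : ℕ := ⌊κ1 * z / 2⌋₊ with hz'def
  have hz'1 : (z' : ℝ) ≤ κ1 * z / 2 := Nat.floor_le (by positivity)
  have hz'2 : κ1 * z / 2 < z' + 1 := Nat.lt_floor_add_one _
  have hz'z : z' ≤ z := by
    have h1 : (z' : ℝ) ≤ z := by nlinarith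
    exact_mod_cast h1
  have hz'c : zc ≤ z' := by
    have h1 : (zc : ℝ) < z' + 1 := by linarith
    have h2 : zc < z' + 1 := by exact_mod_cast h1
    omega
  have hκz : κ₀ * z ≤ κ' * z' := by
    have h1 : κ1 * z / 4 ≤ z' := by linarith
    calc κ₀ * z ≤ κ' * κ1 / 4 * z := mul_le_mul_of_nonneg_right hκ₀3 hz0
      _ = κ' * (κ1 * z / 4) := by ring
      _ ≤ κ' * z' := mul_le_mul_of_nonneg_left h1 hκ'.le
  have hq : IsLaw (cond p A True) := isLaw_cond hp hA
  have hpos : ∀ ω, 0 < cond p A True ω → A ω := fun ω hω =>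
    of_eq_true ((cond_pos_iff hp.nonneg A True ω).1 hω).2
  -- the bad events
  set Bad : Fin (M + 1) × Fin n → D.Ω → Prop := fun ki ω => ¬ ∀ b : Fin n → ℝ,
    (∀ i, |b i - D.Y J ω i| ≤ Real.exp (κ' * z') / 2 ^ (w₀ + (ki.1 : ℕ) * z)) →
    |MvPolynomial.eval b (MvPolynomial.pderiv ki.2 (D.F ki.1 (D.c ki.1 ω)))| ≤
      Real.exp z' * Real.exp (κ₀ * z) with hBad
  have hbad : ∀ ki, Pb (cond p A True) (Bad ki) ≤ η := by
    rintro ⟨k, i⟩
    have hk : (k : ℕ) ≤ M := by omega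
    have hok := Gra.one_ok hp hA hr htop hT hE hA0 hE0 htime hptT hptY hCl e he0 heE he hk hz'z
      hκ₀2 hκz
    have h1 := hcmr J r (w₀ + (k : ℕ) * z) z' 0 (Gra.one D k (w₀ + (k : ℕ) * z) z')
      (cond p A True) hz'c hok 0 le_rfl
      (fun x => MvPolynomial.pderiv i (D.F k x)) (fun ω => A ω)
      (fun _ => Real.exp (κ₀ * z))
      (fun x => (Pool.Agent.H50.PW.totalDegree_pderiv_le _ _).trans (hCl.F_deg k x))
      (fun _ => Real.exp_pos _) ?_ ?_
    · rw [zero_mul, add_zero] at h1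
      exact h1
    · have h2 : Pb (cond p A True) (fun ω => ¬ A ω) = 0 := by
        unfold Pb
        refine Finset.sum_eq_zero fun ω _ => ?_
        split_ifs with h3
        · by_contra h4
          exact h3 (hpos ω (lt_of_le_of_ne (hq.nonneg ω) (Ne.symm h4)))
        · rfl
      refine h2.le.trans ?_
      positivity
    · intro ω hω
      exact hCl.F_grad k hk ω hω i
  have hall : Pb (cond p A True) (fun ω => ∃ ki, Bad ki ω) ≤ 1 / 2 := by
    refine (Pool.Agent.H39.BFL.Pb_ex hq.nonneg Bad η hbad).trans ?_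
    rw [Fintype.card_prod, Fintype.card_fin, Fintype.card_fin, hηdef]
    push_cast
    have h1 : ((M : ℝ) + 1) * n ≠ 0 := by positivity
    rw [show ((M : ℝ) + 1) * n * (1 / (2 * ((M + 1) * n))) = 1 / 2 by field_simp]
  refine ⟨fun ω => A ω ∧ ¬ ∃ ki, Bad ki ω, fun ω h => h.1, ?_, ?_⟩
  · have h1 : Pe (cond p A True) (fun ω => ¬ ∃ ki, Bad ki ω) =
        Pe p (fun ω => A ω ∧ ¬ ∃ ki, Bad ki ω) / Pe p A := Pe_cond _
    have h2 : Pe (cond p A True) (fun ω => ¬ ∃ ki, Bad ki ω) +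
        Pb (cond p A True) (fun ω => ∃ ki, Bad ki ω) = 1 := by
      rw [Pe_eq]
      unfold Pb
      rw [← Finset.sum_add_distrib, ← hq.sum_one]
      refine Finset.sum_congr rfl fun ω _ => ?_
      by_cases h : ∃ ki, Bad ki ω
      · simp [h]
      · simp [h]
    have h3 : 1 / 2 ≤ Pe p (fun ω => A ω ∧ ¬ ∃ ki, Bad ki ω) / Pe p A := by
      rw [← h1]
      linarith
    rwa [le_div_iff₀ hA] at h3
  · intro k hk ω hω b hb i
    have h1 : ¬ Bad (⟨k, by omega⟩, i) ω := fun h => hω.2 ⟨_, h⟩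
    rw [hBad] at h1
    simp only [not_not] at h1
    refine (h1 b fun j => (hb j).trans ?_).trans ?_
    · refine div_le_div_of_nonneg_right ?_ (by positivity)
      refine Real.one_le_exp ?_
      positivity
    · rw [← Real.exp_add]
      refine Real.exp_le_exp.2 ?_
      nlinarith

end Pool.BFL
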